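import Pool.Agent.H5.EG.Spec2

/-!
# Integrality and size of the solutions of an integer linear system
-/

set_option autoImplicit false

namespace Pool.Agent.H106.EG

open Pool.Agent.H5.EG

/-- Cramer's rule -/
theorem cramer_key {b : ℕ} (A : Matrix (Fin b) (Fin b) ℤ) (w : Fin b → ℤ) (c : Fin b → ℂ)
    (hw : ∀ l, (w l : ℂ) = ∑ i, c i * (A i l : ℂ)) (i : Fin b) :
    c i * (A.det : ℂ) = ((A.updateRow i w).det : ℂ) := by
  have h1 := Matrix.det_updateRow_sum (A.map (fun x : ℤ => (x : ℂ))) i c
  have h2 : (∑ k, c k • (A.map (fun x : ℤ => (x : ℂ))) k) = fun l => (w l : ℂ) := by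
    funext l
    rw [hw l, Finset.sum_apply]
    rfl
  rw [h2] at h1
  have h3 : (A.map (fun x : ℤ => (x : ℂ))).updateRow i (fun l => (w l : ℂ)) =
      (A.updateRow i w).map (fun x : ℤ => (x : ℂ)) := by
    rw [Matrix.map_updateRow]
    rfl
  rw [h3] at h1
  rw [Int.cast_det, Int.cast_det]
  exact h1.symm

theorem cramer : S_cramer := by
  intro b A w c K hw hA hK hAK hwK i
  have hkey := cramer_key A w c hw i
  have hdet : (1 : ℝ) ≤ |(A.det : ℝ)| := by
    have h1 : (1 : ℤ) ≤ |A.det| := Int.one_le_abs hA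
    exact_mod_cast h1
  have hdet0 : (0 : ℝ) < |(A.det : ℝ)| := by linarith
  have hn : ‖c i‖ * |(A.det : ℝ)| = |((A.updateRow i w).det : ℝ)| := by
    have h1 := congrArg norm hkey
    rw [norm_mul, Complex.norm_intCast, Complex.norm_intCast] at h1
    exact h1
  constructor
  · intro hc
    rw [div_le_iff₀ hdet0, hn]
    have h1 : (A.updateRow i w).det ≠ 0 := by
      intro h0
      rw [h0, Int.cast_zero] at hkey
      rcases mul_eq_zero.1 hkey with h | h
      · exact hc h
      · exact hA (by exact_mod_cast h)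
    have h2 : (1 : ℤ) ≤ |(A.updateRow i w).det| := Int.one_le_abs h1
    exact_mod_cast h2
  · have h1 : ‖c i‖ ≤ ‖c i‖ * |(A.det : ℝ)| := le_mul_of_one_le_right (norm_nonneg _) hdet
    refine h1.trans ?_
    rw [hn]
    have h2 := Matrix.det_le (A := (A.updateRow i w).map (fun x : ℤ => (x : ℝ)))
      (abv := AbsoluteValue.abs) (x := K) (fun k l => by
        show |(((A.updateRow i w) k l : ℤ) : ℝ)| ≤ K
        rw [Matrix.updateRow_apply]
        split_ifs
        · exact hwK l
        · exact hAK k l)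
    rw [Fintype.card_fin, nsmul_eq_mul, ← Int.cast_det] at h2
    exact h2

end Pool.Agent.H106.EG
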